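import Pool.Agent.Lib_helper93.QSim.Defs
import Pool.Agent.Lib_helper8.QABTree

/-!
# From trees of bounded expected depth to decision trees
-/

set_option autoImplicit false
set_option linter.unusedSectionVars false

open Finset

namespace Pool.Agent.Lib_helper93.QSim

open Pool.Agent.Lib_helper8.QAA

section trees

variable {I α β : Type}

/-- The number of queries on the input `x`. -/
def DTree.cost : DTree I α → (I → Bool) → ℕ
  | .leaf _, _ => 0
  | .node i t₀ t₁, x => (if x i then t₁.cost x else t₀.cost x) + 1

/-- The tree cut at depth `k`. -/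
def DTree.cut (c₀ : α) : ℕ → DTree I α → DTree I α
  | _, .leaf c => .leaf c
  | 0, .node _ _ _ => .leaf c₀
  | k + 1, .node i t₀ t₁ => .node i (DTree.cut c₀ k t₀) (DTree.cut c₀ k t₁)

lemma cut_depth (c₀ : α) (t : DTree I α) : ∀ k : ℕ, (t.cut c₀ k).depth ≤ k := by
  induction t with
  | leaf c => intro k; cases k <;> simp [DTree.cut, DTree.depth]
  | node i t₀ t₁ h₀ h₁ =>
    intro k
    cases k with
    | zero => simp [DTree.cut, DTree.depth]
    | succ k =>
      simp only [DTree.cut, DTree.depth]
      exact Nat.succ_le_succ (max_le (h₀ k) (h₁ k))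

lemma cut_eval (c₀ : α) (t : DTree I α) (x : I → Bool) :
    ∀ k : ℕ, t.cost x ≤ k → (t.cut c₀ k).eval x = t.eval x := by
  induction t with
  | leaf c => intro k _; cases k <;> rfl
  | node i t₀ t₁ h₀ h₁ =>
    intro k hk
    cases k with
    | zero => simp [DTree.cost] at hk
    | succ k =>
      simp only [DTree.cut, DTree.eval]
      simp only [DTree.cost] at hk
      have hk' := Nat.le_of_succ_le_succ hk
      split_ifs with hx
      · rw [if_pos hx] at hk'
        exact h₁ k hk'
      · rw [if_neg hx] at hk'
        exact h₀ k hk'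

/-- The outputs are changed. -/
def DTree.map (φ : α → β) : DTree I α → DTree I β
  | .leaf c => .leaf (φ c)
  | .node i t₀ t₁ => .node i (t₀.map φ) (t₁.map φ)

lemma map_depth (φ : α → β) (t : DTree I α) : (t.map φ).depth = t.depth := by
  induction t with
  | leaf c => rfl
  | node i t₀ t₁ h₀ h₁ => simp only [DTree.map, DTree.depth, h₀, h₁]

lemma map_eval (φ : α → β) (t : DTree I α) (x : I → Bool) : (t.map φ).eval x = φ (t.eval x) := by
  induction t with
  | leaf c => rfl
  | node i t₀ t₁ h₀ h₁ =>
    simp only [DTree.map, DTree.eval, h₀, h₁]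
    split_ifs <;> rfl

variable [DecidableEq I]

/-- The tree which answers the queries to `i` by `b`. -/
def DTree.fix (i : I) (b : Bool) : DTree I α → DTree I α
  | .leaf c => .leaf c
  | .node j t₀ t₁ => if j = i then (if b then t₁.fix i b else t₀.fix i b) else
      .node j (t₀.fix i b) (t₁.fix i b)

lemma fix_eval (i : I) (b : Bool) (t : DTree I α) (x : I → Bool) :
    (t.fix i b).eval x = t.eval (Function.update x i b) := by
  induction t with
  | leaf c => rfl
  | node j t₀ t₁ h₀ h₁ =>
    unfold DTree.fix
    by_cases hj : j = i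
    · subst hj
      rw [if_pos rfl]
      cases b with
      | true => simp [DTree.eval, h₁]
      | false => simp [DTree.eval, h₀]
    · rw [if_neg hj]
      simp [DTree.eval, h₀, h₁, hj]

lemma fix_cost (i : I) (b : Bool) (t : DTree I α) (x : I → Bool) :
    (t.fix i b).cost x ≤ t.cost (Function.update x i b) := by
  induction t with
  | leaf c => exact le_rfl
  | node j t₀ t₁ h₀ h₁ =>
    unfold DTree.fix
    by_cases hj : j = i
    · subst hj
      rw [if_pos rfl]
      cases b with
      | true =>
        simp only [DTree.cost, Function.update_self, if_true]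
        exact h₁.trans (Nat.le_succ _)
      | false =>
        simp only [DTree.cost, Function.update_self]
        exact h₀.trans (Nat.le_succ _)
    · rw [if_neg hj]
      simp only [DTree.cost]
      rw [Function.update_of_ne hj]
      split_ifs
      · exact Nat.succ_le_succ h₁
      · exact Nat.succ_le_succ h₀

lemma fix_cost_inv (i : I) (b c : Bool) (t : DTree I α) (x : I → Bool) :
    (t.fix i b).cost (Function.update x i c) = (t.fix i b).cost x := by
  induction t with
  | leaf c => rfl
  | node j t₀ t₁ h₀ h₁ =>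
    unfold DTree.fix
    by_cases hj : j = i
    · rw [if_pos hj]
      split_ifs
      · exact h₁
      · exact h₀
    · rw [if_neg hj]
      simp only [DTree.cost]
      rw [Function.update_of_ne hj, h₀, h₁]

end trees

variable {I : Type} [Fintype I] [DecidableEq I]

lemma upd_flip (i : I) (b : Bool) (x : I → Bool) :
    Function.update (Pool.Agent.Lib_helper8.QAA.flip i x) i b = Function.update x i b := by
  simp [Pool.Agent.Lib_helper8.QAA.flip]

/-- Splitting an expectation according to the value of a coordinate. -/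
lemma ex_split (i : I) (G : (I → Bool) → ℝ) :
    ex G = (ex (fun x => G (Function.update x i false)) +
      ex (fun x => G (Function.update x i true))) / 2 := by
  rw [← ex_ite (i := i) (F := fun x => G (Function.update x i false))
    (G := fun x => G (Function.update x i true)) (fun x => by rw [upd_flip])
    (fun x => by rw [upd_flip])]
  congr 1
  funext x
  cases hx : x i with
  | true =>
    rw [if_pos rfl]
    congr 1
    rw [← hx, Function.update_eq_self]
  | false =>
    rw [if_neg (by simp)]
    congr 1
    rw [← hx, Function.update_eq_self]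

/-- A function which does not depend on `i` is computed by a tree which does not query `i`,
without more queries on average. -/
lemma exists_fix (i : I) {g : (I → Bool) → ℝ} (hg : ∀ x, g (Pool.Agent.Lib_helper8.QAA.flip i x) = g x)
    {t : DTree I ℝ} (ht : ∀ x, t.eval x = g x) :
    ∃ s : DTree I ℝ, (∀ x, s.eval x = g x) ∧
      (∀ x, s.cost (Pool.Agent.Lib_helper8.QAA.flip i x) = s.cost x) ∧
      ex (fun x => (s.cost x : ℝ)) ≤ ex (fun x => (t.cost x : ℝ)) := by
  have hgu : ∀ (x : I → Bool) (b : Bool), g (Function.update x i b) = g x := by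
    intro x b
    by_cases hb : b = x i
    · rw [hb, Function.update_eq_self]
    · have : b = !x i := by
        cases b <;> cases hx : x i <;> simp_all
      rw [this]
      exact hg x
  have hev : ∀ (b : Bool) (x : I → Bool), (t.fix i b).eval x = g x := by
    intro b x
    rw [fix_eval, ht, hgu]
  have hinv : ∀ (b : Bool) (x : I → Bool),
      (t.fix i b).cost (Pool.Agent.Lib_helper8.QAA.flip i x) = (t.fix i b).cost x := by
    intro b x
    unfold Pool.Agent.Lib_helper8.QAA.flip
    exact fix_cost_inv i b _ t x
  have hc : ∀ b : Bool, ex (fun x => ((t.fix i b).cost x : ℝ)) ≤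
      ex (fun x => (t.cost (Function.update x i b) : ℝ)) := by
    intro b
    apply ex_mono
    intro x
    exact_mod_cast fix_cost i b t x
  have hs := ex_split i (fun x => (t.cost x : ℝ))
  rcases le_total (ex (fun x => (t.cost (Function.update x i false) : ℝ)))
    (ex (fun x => (t.cost (Function.update x i true) : ℝ))) with h | h
  · exact ⟨t.fix i false, hev false, hinv false, by linarith [hc false]⟩
  · exact ⟨t.fix i true, hev true, hinv true, by linarith [hc true]⟩

/-- A function of expected decision tree depth at most `K`. -/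
lemma exists_tree {K : ℝ} {g : (I → Bool) → ℝ} (h : CompE K g) :
    ∃ t : DTree I ℝ, (∀ x, t.eval x = g x) ∧ ex (fun x => (t.cost x : ℝ)) ≤ K := by
  induction h with
  | leaf K c g hK hc =>
    refine ⟨.leaf c, fun x => (hc x).symm, ?_⟩
    simp only [DTree.cost, Nat.cast_zero]
    rw [ex_const]
    exact hK
  | node K K0 K1 i g g0 g1 hK h0 h1 e0 e1 e ih0 ih1 =>
    obtain ⟨t0, a0, c0⟩ := ih0
    obtain ⟨t1, a1, c1⟩ := ih1
    obtain ⟨s0, b0, i0, d0⟩ := exists_fix i e0 a0
    obtain ⟨s1, b1, i1, d1⟩ := exists_fix i e1 a1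
    refine ⟨.node i s0 s1, fun x => ?_, ?_⟩
    · rw [e x]
      simp only [DTree.eval, b0, b1]
    · have h2 : (fun x : I → Bool => (((DTree.node i s0 s1).cost x : ℕ) : ℝ)) =
          fun x => (if x i then (s1.cost x : ℝ) else (s0.cost x : ℝ)) + 1 := by
        funext x
        simp only [DTree.cost]
        push_cast
        rfl
      rw [h2, ex_add, ex_const, ex_ite (F := fun x => (s0.cost x : ℝ))
        (G := fun x => (s1.cost x : ℝ)) (fun x => by rw [i0]) (fun x => by rw [i1])]
      linarith

open scoped Classical in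
lemma pr_eq (A : Set (I → Bool)) : pr A = ex (fun x => if x ∈ A then 1 else 0) := by
  unfold pr ex
  rw [Finset.sum_boole, Set.ncard_eq_toFinset_card', div_eq_mul_inv, mul_comm]
  congr 3
  ext x
  simp

lemma pr_le_ex {A : Set (I → Bool)} {G : (I → Bool) → ℝ} (h0 : ∀ x, 0 ≤ G x)
    (h1 : ∀ x ∈ A, 1 ≤ G x) : pr A ≤ ex G := by
  classical
  rw [pr_eq]
  refine ex_mono fun x => ?_
  by_cases hx : x ∈ A
  · rw [if_pos hx]; exact h1 x hx
  · rw [if_neg hx]; exact h0 x

lemma pr_mono {A B : Set (I → Bool)} (h : A ⊆ B) : pr A ≤ pr B := by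
  unfold pr
  have := Set.ncard_le_ncard h (Set.toFinite B)
  gcongr

lemma pr_union (A B : Set (I → Bool)) : pr (A ∪ B) ≤ pr A + pr B := by
  unfold pr
  rw [← add_div]
  have := Set.ncard_union_le A B
  have h2 : ((A ∪ B).ncard : ℝ) ≤ A.ncard + B.ncard := by exact_mod_cast this
  gcongr

/-- A function approximated in mean square by a function of expected depth `K` is computed
approximately, on most inputs, by a tree of depth `k`. -/
lemma sim_of_compE {K e ε : ℝ} {f g : (I → Bool) → ℝ} (h : CompE K g)
    (he : ex (fun x => (f x - g x) ^ 2) ≤ e) (hε : 0 < ε) (k : ℕ) :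
    ∃ t : DTree I ℝ, t.depth ≤ k ∧
      pr {x | ε < |f x - t.eval x|} ≤ e / ε ^ 2 + K / (k + 1) := by
  obtain ⟨s, hs, hc⟩ := exists_tree h
  refine ⟨s.cut 0 k, cut_depth 0 s k, ?_⟩
  have hk : (0 : ℝ) < (k : ℝ) + 1 := by positivity
  have h1 : pr {x | ε < |f x - (s.cut 0 k).eval x|} ≤
      ex (fun x => (ε ^ 2)⁻¹ * (f x - g x) ^ 2 + ((k : ℝ) + 1)⁻¹ * (s.cost x : ℝ)) := by
    apply pr_le_ex
    · intro x
      positivity
    · intro x hx
      have hx' : ε < |f x - (s.cut 0 k).eval x| := hx
      by_cases hcost : s.cost x ≤ k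
      · rw [cut_eval 0 s x k hcost, hs x] at hx'
        have h2 : ε ^ 2 ≤ (f x - g x) ^ 2 := by
          rw [← sq_abs (f x - g x)]
          exact pow_le_pow_left₀ hε.le hx'.le 2
        have h3 : 1 ≤ (ε ^ 2)⁻¹ * (f x - g x) ^ 2 := by
          rw [inv_mul_eq_div, one_le_div (by positivity)]
          exact h2
        have h4 : 0 ≤ ((k : ℝ) + 1)⁻¹ * (s.cost x : ℝ) := by positivity
        linarith
      · have h2 : (k : ℝ) + 1 ≤ (s.cost x : ℝ) := by
          have : k + 1 ≤ s.cost x := by omega
          exact_mod_cast this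
        have h3 : 1 ≤ ((k : ℝ) + 1)⁻¹ * (s.cost x : ℝ) := by
          rw [inv_mul_eq_div, one_le_div hk]
          exact h2
        have h4 : 0 ≤ (ε ^ 2)⁻¹ * (f x - g x) ^ 2 := by positivity
        linarith
  refine h1.trans ?_
  rw [ex_add, ex_const_mul, ex_const_mul, div_eq_inv_mul, div_eq_inv_mul]
  have h2 : (0 : ℝ) ≤ (ε ^ 2)⁻¹ := by positivity
  have h3 : (0 : ℝ) ≤ ((k : ℝ) + 1)⁻¹ := by positivity
  exact add_le_add (mul_le_mul_of_nonneg_left he h2) (mul_le_mul_of_nonneg_left hc h3)

end Pool.Agent.Lib_helper93.QSim
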