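import Pool.Agent.Lib_helper93.QSim.Tree
import Pool.Agent.Lib_helper90.QW.Main

/-!
# Simulation of quantum query algorithms by decision trees, on most inputs
-/

set_option autoImplicit false
set_option linter.unusedSectionVars false

open Finset

namespace Pool.Agent.Lib_helper93.QSim

open Pool.Agent.Lib_helper8.QAA

variable {I A : Type} [Fintype I] [DecidableEq I] [Fintype A] {p : ℕ}

/-- The bound `min ((16 p)^(2 r)) (exp (140 (log (2 p r))^2))`. -/
noncomputable def MM (p r : ℕ) : ℝ :=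
  min ((16 * (p : ℝ)) ^ (2 * r)) (Real.exp (140 * Real.log (2 * p * r) ^ 2))

lemma Wf_pos {p : ℕ} (hp : 1 ≤ p) (r : ℕ) : 0 < Wf r p r r 1 := by
  have hp0 : (0 : ℝ) < p := by exact_mod_cast hp
  have h1 : Wf r p r r 0 ≤ Wf r p r r 1 := by
    unfold Wf
    refine Finset.sum_le_sum fun k _ => ?_
    have : (4 * (p : ℝ) * 0) ^ k ≤ (4 * (p : ℝ) * 1) ^ k := by
      gcongr
      norm_num
    gcongr
  rw [Wf_zero] at h1
  linarith

/-- The two growth constants. -/
lemma exists_L (hp : 1 ≤ p) {r : ℕ} (hr : 1 ≤ r) : ∃ L : ℝ, 0 < L ∧ L ^ 2 ≤ MM p r ∧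
    ∀ (θ : ℝ), 0 < θ → ∀ Q : Algorithm I A p, ∃ g : (I → Bool) → ℝ, CompE (r * p / θ) g ∧
      ex (fun x => (Q.prob r x - g x) ^ 2) ≤ 2 * √θ * L := by
  unfold MM
  rcases le_total ((16 * (p : ℝ)) ^ (2 * r)) (Real.exp (140 * Real.log (2 * p * r) ^ 2))
    with hmin | hmin
  · rw [min_eq_left hmin]
    refine ⟨Wf r p r r 1, Wf_pos hp r, ?_, fun θ hθ Q => ?_⟩
    · have h0 := Wf_pos hp r
      calc Wf r p r r 1 ^ 2 ≤ ((16 * (p : ℝ)) ^ r) ^ 2 := by
            have := Wf_le_pow hp r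
            gcongr
        _ = _ := by rw [← pow_mul, mul_comm r 2]
    · obtain ⟨g, h1, -, h3, -⟩ := main_tree hp r (ε := 2 * √θ * Wf r p r r 1) hθ le_rfl
        Q.act.card Q le_rfl
      refine ⟨g, compE_mono h1 ?_, h3⟩
      have := mag_le Q r
      gcongr
  · rw [min_eq_right hmin]
    refine ⟨Lib_helper90.QW.LL p r, Lib_helper90.QW.LL_pos hp hr, ?_, fun θ hθ Q => ?_⟩
    · have hL := Lib_helper90.QW.LL_le hp hr
      have hL0 := Lib_helper90.QW.LL_pos hp hr
      calc Lib_helper90.QW.LL p r ^ 2 ≤ Real.exp (70 * Real.log (2 * p * r) ^ 2) ^ 2 := by gcongr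
        _ = _ := by
            rw [← Real.exp_nat_mul]
            congr 1
            push_cast
            ring
    · obtain ⟨g, h1, -, h3, -⟩ := Lib_helper90.QW.main_tree' (I := I) (A := A) (p := p) r
        (ε := 2 * √θ * Lib_helper90.QW.LL p r) hθ
        (fun Q hQ => Lib_helper90.QW.variance_light' Q hp hr hθ hQ) Q.act.card Q le_rfl
      refine ⟨g, compE_mono h1 ?_, h3⟩
      have := mag_le Q r
      gcongr

/-- **Classical simulation of quantum query algorithms on most inputs.** -/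
theorem sim_main (hp : 1 ≤ p) {r : ℕ} (hr : 1 ≤ r) (Q : Algorithm I A p) {ε δ : ℝ} (hε : 0 < ε)
    (hδ : 0 < δ) :
    ∃ t : DTree I ℝ, (t.depth : ℝ) ≤ 32 * p * r * MM p r / (ε ^ 4 * δ ^ 3) ∧
      pr {x | ε < |Q.prob r x - t.eval x|} ≤ δ := by
  obtain ⟨L, hL, hLM, h⟩ := exists_L (I := I) (A := A) (p := p) hp hr
  have hp0 : (0 : ℝ) < p := by exact_mod_cast hp
  have hr0 : (0 : ℝ) < r := by exact_mod_cast hr
  set θ : ℝ := (ε ^ 2 * δ / (4 * L)) ^ 2 with hθ
  have hθ0 : 0 < θ := by positivity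
  have hsq : √θ = ε ^ 2 * δ / (4 * L) := Real.sqrt_sq (by positivity)
  obtain ⟨g, h1, h2⟩ := h θ hθ0 Q
  have he : 2 * √θ * L = ε ^ 2 * δ / 2 := by
    rw [hsq]
    field_simp
    norm_num
  rw [he] at h2
  set K : ℝ := r * p / θ with hK
  have hK0 : 0 < K := by positivity
  obtain ⟨t, ht1, ht2⟩ := sim_of_compE h1 h2 hε ⌊2 * K / δ⌋₊
  refine ⟨t, ?_, ht2.trans ?_⟩
  · have h3 : (t.depth : ℝ) ≤ 2 * K / δ :=
      le_trans (by exact_mod_cast ht1) (Nat.floor_le (by positivity))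
    refine h3.trans ?_
    have h4 : 2 * K / δ = 32 * p * r * L ^ 2 / (ε ^ 4 * δ ^ 3) := by
      rw [hK, hθ]
      field_simp
      ring
    rw [h4]
    gcongr
  · have h3 : 2 * K / δ < (⌊2 * K / δ⌋₊ : ℝ) + 1 := Nat.lt_floor_add_one _
    have h4 : ε ^ 2 * δ / 2 / ε ^ 2 = δ / 2 := by field_simp
    have h5 : K / ((⌊2 * K / δ⌋₊ : ℝ) + 1) ≤ δ / 2 := by
      rw [div_le_iff₀ (by positivity)]
      rw [div_lt_iff₀ hδ] at h3
      linarith
    linarith

/-- Quantum algorithms which compute a function on most inputs. -/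
theorem sim_bool (hp : 1 ≤ p) {r : ℕ} (hr : 1 ≤ r) (Q : Algorithm I A p)
    (F : (I → Bool) → Bool) {δ : ℝ} (hδ : 0 < δ) :
    ∃ t : DTree I Bool, (t.depth : ℝ) ≤ 2 ^ 17 * p * r * MM p r / δ ^ 3 ∧
      pr {x | t.eval x ≠ F x} ≤ δ + pr {x | ¬ ((F x = true → 2 / 3 ≤ Q.prob r x) ∧
        (F x = false → Q.prob r x ≤ 1 / 3))} := by
  classical
  obtain ⟨t, ht1, ht2⟩ := sim_main hp hr Q (ε := 1 / 7) (δ := δ) (by norm_num) hδ
  have hM : 0 < MM p r := by
    have hp0 : (0 : ℝ) < p := by exact_mod_cast hp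
    unfold MM
    exact lt_min (by positivity) (Real.exp_pos _)
  refine ⟨t.map (fun c => decide (1 / 2 ≤ c)), ?_, ?_⟩
  · rw [map_depth]
    refine ht1.trans ?_
    have hX : 0 ≤ p * r * MM p r / δ ^ 3 := by positivity
    have e1 : 32 * p * r * MM p r / ((1 / 7 : ℝ) ^ 4 * δ ^ 3) =
        (32 * 7 ^ 4) * (p * r * MM p r / δ ^ 3) := by
      field_simp
    have e2 : 2 ^ 17 * p * r * MM p r / δ ^ 3 = 2 ^ 17 * (p * r * MM p r / δ ^ 3) := by ring
    rw [e1, e2]
    nlinarith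
  · refine (pr_mono (B := {x | 1 / 7 < |Q.prob r x - t.eval x|} ∪
      {x | ¬ ((F x = true → 2 / 3 ≤ Q.prob r x) ∧ (F x = false → Q.prob r x ≤ 1 / 3))})
      ?_).trans ((pr_union _ _).trans (by linarith))
    intro x hx
    have hx' : (t.map (fun c => decide (1 / 2 ≤ c))).eval x ≠ F x := hx
    rw [map_eval] at hx'
    by_contra hcon
    rw [Set.mem_union, not_or] at hcon
    obtain ⟨c1, c2⟩ := hcon
    have c1' : |Q.prob r x - t.eval x| ≤ 1 / 7 := not_lt.1 c1
    have c2' : (F x = true → 2 / 3 ≤ Q.prob r x) ∧ (F x = false → Q.prob r x ≤ 1 / 3) := by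
      by_contra h
      exact c2 h
    rw [abs_le] at c1'
    apply hx'
    cases hF : F x with
    | true =>
      have := c2'.1 hF
      rw [decide_eq_true_eq]
      linarith [c1'.2]
    | false =>
      have := c2'.2 hF
      rw [decide_eq_false_iff_not, not_le]
      linarith [c1'.1]

end Pool.Agent.Lib_helper93.QSim
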