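import Mathlib

/-!
# Decision trees and probabilities on the cube (definitions)
-/

set_option autoImplicit false

namespace Pool.Agent.Lib_helper93.QSim

/-- The probability of a set of points of the cube `{-1,1}^I` (a bit `b` stands for the sign
`(-1)^b`), uniform measure. -/
noncomputable def pr {I : Type} [Fintype I] (A : Set (I → Bool)) : ℝ :=
  (A.ncard : ℝ) / 2 ^ Fintype.card I

/-- Classical (deterministic) decision trees on inputs `x : I → Bool` with outputs in `α`:
either an output, or a query to a coordinate `i` and two trees to go on with. -/
inductive DTree (I α : Type) : Type
  | leaf (c : α) : DTree I α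
  | node (i : I) (t₀ t₁ : DTree I α) : DTree I α

variable {I α : Type}

/-- The output of a decision tree on the input `x`. -/
def DTree.eval : DTree I α → (I → Bool) → α
  | .leaf c, _ => c
  | .node i t₀ t₁, x => if x i then t₁.eval x else t₀.eval x

/-- The depth, i.e. the number of queries in the worst case. -/
def DTree.depth : DTree I α → ℕ
  | .leaf _ => 0
  | .node _ t₀ t₁ => max t₀.depth t₁.depth + 1

end Pool.Agent.Lib_helper93.QSim
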